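import Pool.Agent.ZPT.Stmts

set_option autoImplicit false

namespace Pool.Agent.ZPT.H56

open Pool.Agent.ZPT
open Polynomial EisensteinSeries UpperHalfPlane
open scoped MatrixGroups

noncomputable section

theorem tsum_eq_E {k : ℕ} (hk : 3 ≤ k) (z : UpperHalfPlane) :
    ∑' p : ℤ × ℤ, 1 / ((p.1 : ℂ) * (z : ℂ) + (p.2 : ℂ)) ^ k =
      2 * riemannZeta k * ModularForm.E hk z := by
  have h1 := tsum_eisSummand_eq_riemannZeta_mul_eisensteinSeries hk z
  rw [← (finTwoArrowEquiv ℤ).symm.tsum_eq] at h1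
  have h2 : ∀ p : ℤ × ℤ, eisSummand (k : ℤ) ((finTwoArrowEquiv ℤ).symm p) z =
      1 / ((p.1 : ℂ) * (z : ℂ) + (p.2 : ℂ)) ^ k := by
    intro p
    simp [eisSummand, finTwoArrowEquiv_symm_apply]
  rw [tsum_congr h2] at h1
  rw [h1]
  rw [show ModularForm.E hk z = (1 / 2 : ℂ) • eisensteinSeriesSIF (N := 1) 0 k z from rfl,
    eisensteinSeriesSIF_apply 0 k z, smul_eq_mul]
  ring

theorem zeta_six : riemannZeta 6 = (Real.pi : ℂ) ^ 6 / 945 := by
  have h := riemannZeta_two_mul_nat (k := 3) (by norm_num)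
  have e : _root_.bernoulli (2 * 3) = 1 / 42 := by decide +kernel
  rw [e] at h
  have e2 : (2 * ((3 : ℕ) : ℂ)) = 6 := by norm_num
  rw [e2] at h
  rw [h]
  have e3 : (Nat.factorial (2 * 3)) = 720 := by decide
  rw [e3]
  push_cast
  ring

theorem je : JEStmt := by
  intro z
  have h4 := tsum_eq_E (k := 4) (by norm_num) z
  have h6 := tsum_eq_E (k := 6) (by norm_num) z
  have z4 : riemannZeta ((4 : ℕ) : ℂ) = (Real.pi : ℂ) ^ 4 / 90 := by
    rw [← riemannZeta_four]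
    norm_num
  have z6 : riemannZeta ((6 : ℕ) : ℂ) = (Real.pi : ℂ) ^ 6 / 945 := by
    rw [← zeta_six]
    norm_num
  rw [z4] at h4
  rw [z6] at h6
  unfold J
  rw [h4, h6, ModularForm.discriminant_eq_E₄_cube_sub_E₆_sq]
  have hpi : (Real.pi : ℂ) ≠ 0 := by exact_mod_cast Real.pi_ne_zero
  have hc : (64 / 27 * (Real.pi : ℂ) ^ 12) ≠ 0 := mul_ne_zero (by norm_num) (pow_ne_zero _ hpi)
  set a := ModularForm.E₄ z with ha
  set b := ModularForm.E₆ z with hb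
  have e1 : 1728 * (60 * (2 * ((Real.pi : ℂ) ^ 4 / 90) * a)) ^ 3 =
      (64 / 27 * (Real.pi : ℂ) ^ 12) * (1728 * a ^ 3) := by ring
  have e2 : (60 * (2 * ((Real.pi : ℂ) ^ 4 / 90) * a)) ^ 3 -
      27 * (140 * (2 * ((Real.pi : ℂ) ^ 6 / 945) * b)) ^ 2 =
      (64 / 27 * (Real.pi : ℂ) ^ 12) * (a ^ 3 - b ^ 2) := by ring
  rw [e1, e2, mul_div_mul_left _ _ hc]
  rw [div_div_eq_mul_div]
  ring

end

end Pool.Agent.ZPT.H56
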